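import Pool.Agent.W819.EN.Geom

/-!
Project EN: joining chains at a cheap circuit (part CIR) and cheap crossings (part RAD).
-/

namespace Pool.Agent.W38.EN
open H974 H906.Cyl Finset
open Pool.Agent.W819.EN

/-! ### closed edges cost two colour changes -/

theorem last_exit {G : Set Edg} {W : Vtx → Prop} {u v : Vtx} (h : Reach G u v) (hu : W u)
    (hv : ¬ W v) : ∃ e ∈ G, ∃ w w' : Vtx,
      ((src e = w ∧ tgt e = w') ∨ (src e = w' ∧ tgt e = w)) ∧ W w ∧ ¬ W w' ∧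
      Reach (G ∩ {e | ¬ W (src e) ∧ ¬ W (tgt e)}) w' v := by
  have key : ∀ u, Reach G u v →
      (∃ e ∈ G, ∃ w w' : Vtx,
        ((src e = w ∧ tgt e = w') ∨ (src e = w' ∧ tgt e = w)) ∧ W w ∧ ¬ W w' ∧
        Reach (G ∩ {e | ¬ W (src e) ∧ ¬ W (tgt e)}) w' v) ∨
      (¬ W u ∧ Reach (G ∩ {e | ¬ W (src e) ∧ ¬ W (tgt e)}) u v) := by
    intro u hu
    induction hu using Relation.ReflTransGen.head_induction_on with
    | refl => exact Or.inr ⟨hv, Reach.refl _ _⟩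
    | @head a b hab _ ih =>
      rcases ih with h1 | ⟨h1, h2⟩
      · exact Or.inl h1
      · obtain ⟨e, he, hc⟩ := hab
        by_cases ha : W a
        · exact Or.inl ⟨e, he, a, b, hc.imp id id, ha, h1, h2⟩
        · right
          refine ⟨ha, Reach.trans (Adj.reach ⟨e, ⟨he, ?_⟩, hc⟩) h2⟩
          rcases hc with ⟨h3, h4⟩ | ⟨h3, h4⟩
          · show ¬ W (src e) ∧ ¬ W (tgt e)
            rw [h3, h4]; exact ⟨ha, h1⟩
          · show ¬ W (src e) ∧ ¬ W (tgt e)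
            rw [h3, h4]; exact ⟨h1, ha⟩
  rcases key u h with h1 | ⟨h1, -⟩
  · exact h1
  · exact absurd hu h1

theorem edz_of (e : Edg) : edz (e.1 + e.2.1) (dco e) = e := by
  obtain ⟨x, y, _ | _⟩ := e
  · unfold edz dco
    simp only [Bool.false_eq_true, if_false]
    rw [if_neg (by omega)]
    simp only [Prod.mk.injEq, and_true]
    omega
  · unfold edz dco
    simp only [if_true]
    rw [if_pos (by omega)]
    simp only [Prod.mk.injEq, and_true]
    omega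

theorem fc_src (e : Edg) : (dco e + (e.1 + e.2.1)) % 2 = 0 ∧ fc (src e) = (e.1 + e.2.1, dco e) ∧
      fc (tgt e) = (e.1 + e.2.1 + 1, dco e + 1) ∨
    (dco e + (e.1 + e.2.1)) % 2 = 1 ∧ fc (src e) = (e.1 + e.2.1, dco e + 1) ∧
      fc (tgt e) = (e.1 + e.2.1 + 1, dco e) := by
  obtain ⟨x, y, _ | _⟩ := e
  · right
    simp only [dco, fc, src_mk, tgt_false, Bool.false_eq_true, if_false, Prod.mk.injEq]
    refine ⟨by omega, ⟨trivial, by ring⟩, by ring, by ring⟩
  · left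
    simp only [dco, fc, src_mk, tgt_true, if_true, Prod.mk.injEq]
    refine ⟨by omega, trivial, by ring, by ring⟩

theorem Mv_symm {G : Set Edg} {p q : ℤ × ℤ} (h : Mv G p q) : Mv G q p := h.symm

theorem St_symm {p q : ℤ × ℤ} (h : St p q) : St q p := by
  rcases h with ⟨h1, h2⟩ | ⟨h1, h2⟩
  · exact Or.inl ⟨h1.symm, h2.symm⟩
  · exact Or.inr ⟨h1.symm, h2.symm⟩

theorem free_of_mem {G : Set Edg} {e : Edg} (he : e ∈ G) : Mv G (fc (src e)) (fc (tgt e)) := by
  have hed := edz_of e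
  rcases fc_src e with ⟨h3, h4, h5⟩ | ⟨h3, h4, h5⟩
  · rw [h4, h5]
    refine Or.inl ⟨rfl, Or.inl ⟨rfl, ?_⟩⟩
    simp only
    rw [if_pos (by omega), hed]
    exact he
  · rw [h4, h5]
    refine Or.inr ⟨rfl, Or.inr ⟨rfl, ?_⟩⟩
    simp only
    rw [if_neg (by omega), hed]
    exact he

/-- crossing any edge costs two colour changes -/
theorem two_steps {G : Set Edg} (e : Edg) : Ch (Mv G) St 2 (fc (src e)) (fc (tgt e)) := by
  rcases fc_src e with ⟨h3, h4, h5⟩ | ⟨h3, h4, h5⟩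
  · rw [h4, h5]
    exact Ch.step (b := (e.1 + e.2.1 + 1, dco e)) (Ch.of_step (Or.inl ⟨rfl, Or.inl rfl⟩))
      (Or.inr ⟨rfl, Or.inl rfl⟩)
  · rw [h4, h5]
    exact Ch.step (b := (e.1 + e.2.1, dco e)) (Ch.of_step (Or.inr ⟨rfl, Or.inr rfl⟩))
      (Or.inl ⟨rfl, Or.inl rfl⟩)

theorem free_reach {G : Set Edg} {u v : Vtx} (h : Reach G u v) :
    Ch (Mv G) St 0 (fc u) (fc v) := by
  induction h with
  | refl => exact Ch.refl _ _
  | tail _ hs ih =>
    obtain ⟨e, he, hc⟩ := hs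
    rcases hc with ⟨h3, h4⟩ | ⟨h3, h4⟩
    · rw [← h3] at ih; rw [← h4]
      exact Ch.rel ih (free_of_mem he)
    · rw [← h4] at ih; rw [← h3]
      exact Ch.rel ih (Mv_symm (free_of_mem he))

/-- each closed edge costs two colour changes -/
theorem reach_chain {G : Set Edg} (X : Finset Edg) {u v : Vtx} (h : Reach (G ∪ ↑X) u v) :
    Ch (Mv G) St (2 * X.card) (fc u) (fc v) := by
  induction hn : X.card generalizing X u v with
  | zero =>
    have hX : X = ∅ := Finset.card_eq_zero.1 hn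
    subst hX
    rw [Finset.coe_empty, Set.union_empty] at h
    exact free_reach h
  | succ n ih =>
    by_cases hv : Reach G u v
    · exact (free_reach hv).mono (Nat.zero_le _)
    · obtain ⟨e, heU, w, w', hc, hw, hw', hr⟩ :=
        last_exit (W := fun w => Reach G u w) h (Reach.refl _ _) hv
      have heG : e ∉ G := by
        intro he
        apply hw'
        rcases hc with ⟨h3, h4⟩ | ⟨h3, h4⟩
        · exact hw.trans (Adj.reach ⟨e, he, Or.inl ⟨h3, h4⟩⟩)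
        · exact hw.trans (Adj.reach ⟨e, he, Or.inr ⟨h3, h4⟩⟩)
      have heX : e ∈ X := by
        rcases heU with h1 | h1
        · exact absurd h1 heG
        · exact Finset.mem_coe.1 h1
      have hcard : (X.erase e).card = n := by
        rw [Finset.card_erase_of_mem heX, hn]; rfl
      have hr' : Reach (G ∪ ↑(X.erase e)) w' v := by
        apply hr.mono
        rintro e' ⟨h1, h3, h4⟩
        rcases h1 with h1 | h1
        · exact Or.inl h1
        · right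
          rw [Finset.coe_erase]
          refine ⟨h1, ?_⟩
          rintro rfl
          rcases hc with ⟨h5, h6⟩ | ⟨h5, h6⟩
          · exact h3 (by rw [h5]; exact hw)
          · exact h4 (by rw [h6]; exact hw)
      have c1 := free_reach hw
      have c3 := ih (X.erase e) hr' hcard
      have c2 : Ch (Mv G) St 2 (fc w) (fc w') := by
        rcases hc with ⟨h5, h6⟩ | ⟨h5, h6⟩
        · rw [← h5, ← h6]; exact two_steps e
        · rw [← h5, ← h6]
          exact (two_steps e).symm (fun _ _ => Mv_symm) (fun _ _ => St_symm)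
      have c := (c1.trans c2).trans c3
      rwa [show 0 + 2 + 2 * n = 2 * (n + 1) by ring] at c

/-! ### part RAD -/

theorem t_RAD : SRad := by
  intro F v b k hb hR
  obtain ⟨X, _, hcard, y, y', hy, hy', hreach⟩ := hR
  have h1 : Reach ((↑F : Set Edg) ∪ ↑X) (v.1 + b, y) (v.1 + 8 * b, y') := by
    refine hreach.mono ?_
    rintro e ⟨he, _⟩
    rw [Finset.coe_union] at he
    exact he
  have h2 := reach_chain X h1
  have hD : DA (↑F : Set Edg) v b (8 * b) (2 * k) := by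
    refine ⟨_, _, ?_, ?_, h2.mono (by omega)⟩
    · unfold nmv fc
      simp only
      rcases abs_cases (v.1 + (b : ℤ) + y - (v.1 + v.2)) with ⟨e1, _⟩ | ⟨e1, _⟩ <;>
      rcases abs_cases (v.1 + (b : ℤ) - y - (v.1 - v.2)) with ⟨e2, _⟩ | ⟨e2, _⟩ <;>
        rw [e1, e2] <;> omega
    · unfold nmv fc
      simp only
      have e1 := le_abs_self (v.1 + 8 * (b : ℤ) + y' - (v.1 + v.2))
      have e2 := le_abs_self (v.1 + 8 * (b : ℤ) - y' - (v.1 - v.2))
      push_cast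
      linarith
  exact Nat.sInf_le hD

/-! ### a circuit in an annulus -/

/-- paths from the inner square to the boundary of the box are connected with `z` as soon as the
edges of `E` are present -/
def Zv (v : Vtx) (R1 R2 : ℤ) (E : Finset Edg) (z : Vtx) : Prop :=
  ∀ F : Finset Edg, E ⊆ F → ∀ u w : Vtx, inR (v.1 - R1) (v.1 + R1) (v.2 - R1) (v.2 + R1) u →
    (w.1 = v.1 - R2 ∨ w.1 = v.1 + R2 ∨ w.2 = v.2 - R2 ∨ w.2 = v.2 + R2) →
    Reach (↑F ∩ ↑(bx v R2)) u w → Reach (↑F ∩ ↑(bx v R2)) u z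

theorem circ_v {v : Vtx} {R1 R2 : ℤ} (h1 : 0 ≤ R1) (h2 : R1 < R2) {E : Finset Edg}
    (hT : LRc (v.1 - R2) (v.1 + R2) (v.2 + R1) (v.2 + R2) E)
    (hB : LRc (v.1 - R2) (v.1 + R2) (v.2 - R2) (v.2 - R1) E)
    (hR : TBc (v.1 + R1) (v.1 + R2) (v.2 - R2) (v.2 + R2) E)
    (hL : TBc (v.1 - R2) (v.1 - R1) (v.2 - R2) (v.2 + R2) E) :
    ∃ z : Vtx, Zv v R1 R2 E z := by
  obtain ⟨t, t', ht, ht', hT0⟩ := hT
  obtain ⟨b, b', hb, hb', hB0⟩ := hB
  obtain ⟨r, r', hr, hr', hR0⟩ := hR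
  obtain ⟨l, l', hl, hl', hL0⟩ := hL
  refine ⟨(r, v.2 - R2), ?_⟩
  intro F hEF u w hu hw hP
  unfold bx at hP ⊢
  have hsub : ∀ S : Set Edg, (↑E ∩ S : Set Edg) ⊆ ↑F ∩ S := fun S =>
    Set.inter_subset_inter_left _ (by exact_mod_cast hEF)
  have hT' := (hT0.mono (hsub _)).mono (Set.inter_subset_inter_right (↑F)
    (by exact_mod_cast LRE_subset_RE :
      (↑(LRE (v.1 - R2) (v.1 + R2) (v.2 + R1) (v.2 + R2)) : Set Edg) ⊆ _))
  have hB' := (hB0.mono (hsub _)).mono (Set.inter_subset_inter_right (↑F)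
    (by exact_mod_cast LRE_subset_RE :
      (↑(LRE (v.1 - R2) (v.1 + R2) (v.2 - R2) (v.2 - R1)) : Set Edg) ⊆ _))
  have hR' := (hR0.mono (hsub _)).mono (Set.inter_subset_inter_right (↑F)
    (by exact_mod_cast TBE_subset_RE :
      (↑(TBE (v.1 + R1) (v.1 + R2) (v.2 - R2) (v.2 + R2)) : Set Edg) ⊆ _))
  have hL' := (hL0.mono (hsub _)).mono (Set.inter_subset_inter_right (↑F)
    (by exact_mod_cast TBE_subset_RE :
      (↑(TBE (v.1 - R2) (v.1 - R1) (v.2 - R2) (v.2 + R2)) : Set Edg) ⊆ _))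
  have mTR : Reach (↑F ∩ ↑(RE (v.1 - R2) (v.1 + R2) (v.2 - R2) (v.2 + R2)))
      (v.1 - R2, t) (r, v.2 - R2) :=
    cross_meet (by omega) (by omega) le_rfl (by omega) (by omega) le_rfl hT'
      (by simp only; omega) le_rfl hR' (by simp only; omega) le_rfl
  have mBR : Reach (↑F ∩ ↑(RE (v.1 - R2) (v.1 + R2) (v.2 - R2) (v.2 + R2)))
      (v.1 - R2, b) (r, v.2 - R2) :=
    cross_meet (by omega) (by omega) le_rfl le_rfl (by omega) (by omega) hB'
      (by simp only; omega) le_rfl hR' le_rfl (by simp only; omega)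
  have mTL : Reach (↑F ∩ ↑(RE (v.1 - R2) (v.1 + R2) (v.2 - R2) (v.2 + R2)))
      (v.1 - R2, t) (l, v.2 - R2) :=
    cross_meet le_rfl (by omega) (by omega) (by omega) (by omega) le_rfl hT' le_rfl
      (by simp only; omega) hL' (by simp only; omega) le_rfl
  unfold inR at hu
  rcases hw with hw | hw | hw | hw
  · have m : Reach (↑F ∩ ↑(RE (v.1 - R2) (v.1 + R2) (v.2 - R2) (v.2 + R2))) w (l, v.2 - R2) :=
      cross_meet le_rfl (by omega) (by omega) le_rfl (by omega) le_rfl hP.symm hw.le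
        (show v.1 - R1 ≤ u.1 by omega) hL' le_rfl le_rfl
    exact hP.trans (m.trans (mTL.symm.trans mTR))
  · exact cross_meet (by omega) (by omega) le_rfl le_rfl (by omega) le_rfl hP (by omega) hw.ge
      hR' le_rfl le_rfl
  · have m : Reach (↑F ∩ ↑(RE (v.1 - R2) (v.1 + R2) (v.2 - R2) (v.2 + R2))) (v.1 - R2, b) w :=
      cross_meet le_rfl (by omega) le_rfl le_rfl (by omega) (by omega) hB' le_rfl le_rfl hP.symm
        hw.le (show v.2 - R1 ≤ u.2 by omega)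
    exact hP.trans (m.symm.trans mBR)
  · have m : Reach (↑F ∩ ↑(RE (v.1 - R2) (v.1 + R2) (v.2 - R2) (v.2 + R2))) (v.1 - R2, t) u :=
      cross_meet le_rfl (by omega) le_rfl (by omega) (by omega) le_rfl hT' le_rfl le_rfl hP
        (by omega) hw.ge
    exact m.symm.trans mTR

/-! ### a chain across the circuit comes within one colour change of its cluster -/

/-- `v` is a corner of the face `q` (or the vertex of the face `q`) -/
def Cor (q : ℤ × ℤ) (v : Vtx) : Prop :=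
  (q.1 = v.1 + v.2 ∧ q.2 = v.1 - v.2) ∨
  ((q.1 = v.1 + v.2 + 1 ∨ q.1 = v.1 + v.2 - 1) ∧ q.2 = v.1 - v.2) ∨
  (q.1 = v.1 + v.2 ∧ (q.2 = v.1 - v.2 + 1 ∨ q.2 = v.1 - v.2 - 1))

/-- the edges none of whose endpoints is in `V` -/
def HH (V : Vtx → Prop) : Set Edg := {e | ¬ V (src e) ∧ ¬ V (tgt e)}

theorem hadj {V : Vtx → Prop} {x y x' y' : ℤ} (h : ¬ V (x, y)) (h' : ¬ V (x', y'))
    (hn : (y = y' ∧ (x' = x ∨ x' = x + 1 ∨ x = x' + 1)) ∨
      (x = x' ∧ (y' = y ∨ y' = y + 1 ∨ y = y' + 1))) : Reach (HH V) (x, y) (x', y') := by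
  rcases hn with ⟨rfl, rfl | rfl | rfl⟩ | ⟨rfl, rfl | rfl | rfl⟩
  · exact Reach.refl _ _
  · exact Adj.reach ⟨(x, y, true), ⟨h, h'⟩, Or.inl ⟨rfl, rfl⟩⟩
  · exact Adj.reach ⟨(x', y, true), ⟨h', h⟩, Or.inr ⟨rfl, rfl⟩⟩
  · exact Reach.refl _ _
  · exact Adj.reach ⟨(x, y, false), ⟨h, h'⟩, Or.inl ⟨rfl, rfl⟩⟩
  · exact Adj.reach ⟨(x, y', false), ⟨h', h⟩, Or.inr ⟨rfl, rfl⟩⟩

/-- the corners of a face which is not touched are connected outside `V` -/
theorem hcor {V : Vtx → Prop} {q : ℤ × ℤ} (hq : ∀ v, Cor q v → ¬ V v) {v v' : Vtx}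
    (h : Cor q v) (h' : Cor q v') : Reach (HH V) v v' := by
  obtain ⟨x, y⟩ := v
  obtain ⟨x', y'⟩ := v'
  have h1 : Cor q (x', y) := by
    unfold Cor at h h' ⊢
    simp only at h h' ⊢
    omega
  refine (hadj (hq _ h) (hq _ h1) (Or.inl ⟨rfl, ?_⟩)).trans
    (hadj (hq _ h1) (hq _ h') (Or.inr ⟨rfl, ?_⟩))
  · unfold Cor at h h'
    simp only at h h'
    omega
  · unfold Cor at h h'
    simp only at h h'
    omega

/-- the face `q` is not touched and its corners are connected with `u0` outside `V` -/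
def NT (V : Vtx → Prop) (u0 : Vtx) (q : ℤ × ℤ) : Prop :=
  ∀ v, Cor q v → ¬ V v ∧ Reach (HH V) u0 v

theorem nt_cor {V : Vtx → Prop} {u0 : Vtx} {q q' : ℤ × ℤ} (h : NT V u0 q)
    (hq : ∀ v, Cor q' v → ¬ V v) {v : Vtx} (h1 : Cor q v) (h2 : Cor q' v) : NT V u0 q' :=
  fun v' hv' => ⟨hq v' hv', (h v h1).2.trans (hcor hq h2 hv')⟩

/-- neighbouring faces: steps and opposite faces of a plaquette -/
theorem nt_move {V : Vtx → Prop} {u0 : Vtx} {q q' : ℤ × ℤ} (h : NT V u0 q)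
    (hq : ∀ v, Cor q' v → ¬ V v) (hm : St q q' ∨ (nb q.1 q'.1 ∧ nb q.2 q'.2)) : NT V u0 q' := by
  obtain ⟨a, s⟩ := q
  obtain ⟨a', s'⟩ := q'
  have hdec : (∃ v, Cor (a, s) v ∧ Cor (a', s') v) ∨
      (∃ x y x' y', Cor (a, s) (x, y) ∧ Cor (a', s') (x', y') ∧
        ((y = y' ∧ (x' = x ∨ x' = x + 1 ∨ x = x' + 1)) ∨
          (x = x' ∧ (y' = y ∨ y' = y + 1 ∨ y = y' + 1)))) := by
    rcases hm with hm | ⟨h1, h2⟩
    · left
      unfold St nb at hm
      simp only at hm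
      by_cases hp : (a + s) % 2 = 0
      · refine ⟨((a + s) / 2, (a - s) / 2), ?_, ?_⟩ <;> unfold Cor <;> simp only <;> omega
      · refine ⟨((a' + s') / 2, (a' - s') / 2), ?_, ?_⟩ <;> unfold Cor <;> simp only <;> omega
    · unfold nb at h1 h2
      simp only at h1 h2
      by_cases hp : (a + s) % 2 = 0
      · right
        refine ⟨(a + s) / 2, (a - s) / 2, (a' + s') / 2, (a' - s') / 2, ?_, ?_, ?_⟩
        · unfold Cor; simp only; omega
        · unfold Cor; simp only; omega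
        · omega
      · left
        refine ⟨((a' + s) / 2, (a' - s) / 2), ?_, ?_⟩ <;> unfold Cor <;> simp only <;> omega
  rcases hdec with ⟨v, h1, h2⟩ | ⟨x, y, x', y', h1, h2, h3⟩
  · exact nt_cor h hq h1 h2
  · intro v hv
    refine ⟨hq v hv, ?_⟩
    exact ((h _ h1).2.trans (hadj (h _ h1).1 (hq _ h2) h3)).trans (hcor hq h2 hv)

theorem mv_nb {G : Set Edg} {p q : ℤ × ℤ} (h : Mv G p q) : nb p.1 q.1 ∧ nb p.2 q.2 := by
  unfold Mv lnk at h
  unfold nb
  rcases h with ⟨h1, h2⟩ | ⟨h1, h2⟩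
  · rcases h2 with ⟨h2, _⟩ | ⟨h2, _⟩
    · exact ⟨Or.inl h2, Or.inl h1⟩
    · exact ⟨Or.inr h2, Or.inl h1⟩
  · rcases h2 with ⟨h2, _⟩ | ⟨h2, _⟩
    · exact ⟨Or.inr h2, Or.inr h1⟩
    · exact ⟨Or.inl h2, Or.inr h1⟩

/-- a face and the face of its corner are at most one step apart -/
theorem cor_step {G : Set Edg} {q : ℤ × ℤ} {w : Vtx} (h : Cor q w) : Ch (Mv G) St 1 q (fc w) := by
  by_cases hfc : fc w = q
  · rw [hfc]; exact Ch.refl _ _
  · refine Ch.of_step ?_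
    unfold St nb
    unfold Cor at h
    unfold fc at hfc ⊢
    have h3 : ¬ (w.1 + w.2 = q.1 ∧ w.1 - w.2 = q.2) := by
      intro h; exact hfc (Prod.ext h.1 h.2)
    simp only
    omega

theorem Ch_symm {G : Set Edg} {K : ℕ} {p q : ℤ × ℤ} (h : Ch (Mv G) St K p q) :
    Ch (Mv G) St K q p := h.symm (fun _ _ => Mv_symm) (fun _ _ => St_symm)

/-- the result of walking along the chain -/
theorem walk {V : Vtx → Prop} {G : Set Edg} {v : Vtx} {R : ℤ} {u0 : Vtx} {K : ℕ}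
    {p q : ℤ × ℤ} (hu0 : Cor p u0) (hp : nmv v p < 2 * R) (h : Ch (Mv G) St K p q) :
    (∃ (w : Vtx) (K1 K2 : ℕ), V w ∧ K1 + K2 ≤ K ∧ Ch (Mv G) St (K1 + 1) p (fc w) ∧
      Ch (Mv G) St (K2 + 1) (fc w) q) ∨
    (∃ q', 2 * R ≤ nmv v q' ∧ NT V u0 q') ∨
    (nmv v q < 2 * R ∧ NT V u0 q ∧ Ch (Mv G) St K p q) := by
  have key : ∀ {K' : ℕ} {q q' : ℤ × ℤ}, NT V u0 q → (St q q' ∨ (nb q.1 q'.1 ∧ nb q.2 q'.2)) →
      Ch (Mv G) St K' p q' →
      (∃ (w : Vtx) (K1 K2 : ℕ), V w ∧ K1 + K2 ≤ K' ∧ Ch (Mv G) St (K1 + 1) p (fc w) ∧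
        Ch (Mv G) St (K2 + 1) (fc w) q') ∨
      (∃ q', 2 * R ≤ nmv v q' ∧ NT V u0 q') ∨
      (nmv v q' < 2 * R ∧ NT V u0 q' ∧ Ch (Mv G) St K' p q') := by
    intro K' q q' hnt hm hch
    by_cases ht : ∃ w, Cor q' w ∧ V w
    · obtain ⟨w, hw, hV⟩ := ht
      left
      refine ⟨w, K', 0, hV, le_rfl, hch.trans (cor_step hw), ?_⟩
      rw [zero_add]
      exact Ch_symm (cor_step hw)
    · right
      have hq : ∀ v, Cor q' v → ¬ V v := fun v hv hV => ht ⟨v, hv, hV⟩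
      have hnt' := nt_move hnt hq hm
      by_cases hn' : 2 * R ≤ nmv v q'
      · exact Or.inl ⟨q', hn', hnt'⟩
      · exact Or.inr ⟨not_le.1 hn', hnt', hch⟩
  induction h with
  | refl k p =>
    by_cases ht : ∃ w, Cor p w ∧ V w
    · obtain ⟨w, hw, hV⟩ := ht
      left
      refine ⟨w, 0, 0, hV, by omega, ?_, ?_⟩
      · rw [zero_add]; exact cor_step hw
      · rw [zero_add]; exact Ch_symm (cor_step hw)
    · right; right
      have hq : ∀ v, Cor p v → ¬ V v := fun v hv hV => ht ⟨v, hv, hV⟩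
      exact ⟨hp, fun v' hv' => ⟨hq v' hv', hcor hq hu0 hv'⟩, Ch.refl _ _⟩
  | @rel k p b c _ hr ih =>
    rcases ih hu0 hp key with ⟨w, K1, K2, hV, hK, c1, c2⟩ | ih | ⟨h1, h2, h3⟩
    · exact Or.inl ⟨w, K1, K2, hV, hK, c1, Ch.rel c2 hr⟩
    · exact Or.inr (Or.inl ih)
    · exact key h2 (Or.inr (mv_nb hr)) (Ch.rel h3 hr)
  | @step k p b c _ hs ih =>
    rcases ih hu0 hp key with ⟨w, K1, K2, hV, hK, c1, c2⟩ | ih | ⟨h1, h2, h3⟩
    · exact Or.inl ⟨w, K1, K2 + 1, hV, by omega, c1, Ch.step c2 hs⟩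
    · exact Or.inr (Or.inl ih)
    · exact key h2 (Or.inl hs) (Ch.step h3 hs)

/-- a chain across the circuit comes within one colour change of its cluster -/
theorem touch2 {v : Vtx} {R1 R : ℤ} (hR1 : 0 ≤ R1) (hR : R1 < R) {E : Finset Edg} {z : Vtx}
    (hz : Zv v R1 R E z) {G : Set Edg} {K : ℕ} {p q : ℤ × ℤ} (hp : nmv v p ≤ 2 * R1)
    (hq : 2 * R ≤ nmv v q) (hch : Ch (Mv G) St K p q) : ∃ (w : Vtx) (K1 K2 : ℕ),
      Reach (↑E ∩ ↑(bx v R)) z w ∧ K1 + K2 ≤ K ∧ Ch (Mv G) St (K1 + 1) p (fc w) ∧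
      Ch (Mv G) St (K2 + 1) (fc w) q := by
  classical
  set S : Finset Edg := bx v R with hS
  set V : Vtx → Prop := fun w => Reach ((↑E : Set Edg) ∩ ↑S) z w with hV
  set u0 : Vtx := ((p.1 + p.2) / 2, (p.1 - p.2) / 2) with hu0
  have hcor0 : Cor p u0 := by
    unfold Cor; rw [hu0]; simp only; omega
  have hin : inR (v.1 - R1) (v.1 + R1) (v.2 - R1) (v.2 + R1) u0 := by
    unfold inR; rw [hu0]; simp only
    unfold nmv at hp
    rcases abs_cases (p.1 - (v.1 + v.2)) with ⟨h1, _⟩ | ⟨h1, _⟩ <;>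
    rcases abs_cases (p.2 - (v.1 - v.2)) with ⟨h2, _⟩ | ⟨h2, _⟩ <;>
      rw [h1, h2] at hp <;> omega
  have main : (∃ q', 2 * R ≤ nmv v q' ∧ NT V u0 q') → ¬ V u0 → False := by
    rintro ⟨q', hq', hnt⟩ h0
    have hc : Cor q' ((q'.1 + q'.2) / 2, (q'.1 - q'.2) / 2) := by
      unfold Cor; simp only; omega
    have hr := (hnt _ hc).2
    obtain ⟨w', hw1, hw2, hw3⟩ := first_exit (a := v.1 - R) (b := v.1 + R) (c := v.2 - R)
      (d := v.2 + R) (u := u0) (by unfold inR at hin ⊢; omega) hr (by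
        unfold nmv at hq'
        simp only
        rcases abs_cases (q'.1 - (v.1 + v.2)) with ⟨h1, _⟩ | ⟨h1, _⟩ <;>
        rcases abs_cases (q'.2 - (v.1 - v.2)) with ⟨h2, _⟩ | ⟨h2, _⟩ <;>
          rw [h1, h2] at hq' <;> omega)
    set F : Finset Edg := E ∪ S.filter (fun e => e ∈ HH V) with hF
    have h1 : Reach ((↑F : Set Edg) ∩ ↑S) u0 w' := by
      refine hw3.mono ?_
      rintro e ⟨he1, he2⟩
      refine ⟨?_, he2⟩
      rw [hF]
      simp only [coe_union, coe_filter, Set.mem_union, mem_coe, Set.mem_setOf_eq]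
      exact Or.inr ⟨he2, he1⟩
    have h2 := hz F subset_union_left u0 w' hin hw2 h1
    have h3 : ∀ v, Reach ((↑F : Set Edg) ∩ ↑S) u0 v → ¬ V v := by
      intro v hv
      induction hv with
      | refl => exact h0
      | @tail w w' _ hs ih =>
        obtain ⟨e, ⟨heF, heS⟩, hcase⟩ := hs
        rw [hF] at heF
        simp only [coe_union, coe_filter, Set.mem_union, mem_coe, Set.mem_setOf_eq] at heF
        rcases heF with heE | ⟨_, heH⟩
        · intro hw'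
          apply ih
          have : Adj ((↑E : Set Edg) ∩ ↑S) w' w := ⟨e, ⟨heE, heS⟩, hcase.symm⟩
          exact Relation.ReflTransGen.tail hw' this
        · rcases hcase with ⟨_, h5⟩ | ⟨h5, _⟩
          · rw [← h5]; exact heH.2
          · rw [← h5]; exact heH.1
    exact h3 z h2 (Reach.refl _ _)
  by_cases h0 : V u0
  · refine ⟨u0, 0, K, h0, by omega, ?_, ?_⟩
    · rw [zero_add]; exact cor_step hcor0
    · have := (Ch_symm (G := G) (cor_step hcor0)).trans hch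
      rwa [add_comm] at this
  rcases walk (V := V) (v := v) (R := R) hcor0 (by omega) hch with
    ⟨w, K1, K2, hw, hK, c1, c2⟩ | h | ⟨h2, _, _⟩
  · exact ⟨w, K1, K2, hw, hK, c1, c2⟩
  · exact absurd (main h h0) id
  · exact absurd hq (not_le.2 h2)

/-! ### existence of chains -/

theorem ex_chain (G : Set Edg) (p q : ℤ × ℤ) : ∃ K, Ch (Mv G) St K p q := by
  have h1 : ∀ (n : ℕ) (a s : ℤ), ∃ K, Ch (Mv G) St K (a, s) (a + n, s) := by
    intro n
    induction n with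
    | zero => intro a s; exact ⟨0, by simpa using Ch.refl 0 (a, s)⟩
    | succ n ih =>
      intro a s
      obtain ⟨K, hK⟩ := ih a s
      refine ⟨K + 1, Ch.step hK (Or.inl ⟨rfl, Or.inl ?_⟩)⟩
      push_cast; ring
  have h2 : ∀ (n : ℕ) (a s : ℤ), ∃ K, Ch (Mv G) St K (a, s) (a, s + n) := by
    intro n
    induction n with
    | zero => intro a s; exact ⟨0, by simpa using Ch.refl 0 (a, s)⟩
    | succ n ih =>
      intro a s
      obtain ⟨K, hK⟩ := ih a s
      refine ⟨K + 1, Ch.step hK (Or.inr ⟨rfl, Or.inl ?_⟩)⟩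
      push_cast; ring
  have h3 : ∀ a a' s : ℤ, ∃ K, Ch (Mv G) St K (a, s) (a', s) := by
    intro a a' s
    rcases le_total a a' with h | h
    · obtain ⟨K, hK⟩ := h1 (a' - a).toNat a s
      refine ⟨K, ?_⟩
      rw [Int.toNat_of_nonneg (by omega)] at hK
      simpa using hK
    · obtain ⟨K, hK⟩ := h1 (a - a').toNat a' s
      refine ⟨K, ?_⟩
      rw [Int.toNat_of_nonneg (by omega)] at hK
      have : Ch (Mv G) St K (a', s) (a, s) := by simpa using hK
      exact Ch_symm this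
  have h4 : ∀ a s s' : ℤ, ∃ K, Ch (Mv G) St K (a, s) (a, s') := by
    intro a s s'
    rcases le_total s s' with h | h
    · obtain ⟨K, hK⟩ := h2 (s' - s).toNat a s
      refine ⟨K, ?_⟩
      rw [Int.toNat_of_nonneg (by omega)] at hK
      simpa using hK
    · obtain ⟨K, hK⟩ := h2 (s - s').toNat a s'
      refine ⟨K, ?_⟩
      rw [Int.toNat_of_nonneg (by omega)] at hK
      have : Ch (Mv G) St K (a, s') (a, s) := by simpa using hK
      exact Ch_symm this
  obtain ⟨K1, c1⟩ := h3 p.1 q.1 p.2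
  obtain ⟨K2, c2⟩ := h4 q.1 p.2 q.2
  exact ⟨K1 + K2, c1.trans c2⟩

theorem DA_ex (G : Set Edg) (v : Vtx) (r R : ℕ) : ∃ K, DA G v r R K := by
  obtain ⟨K, hK⟩ := ex_chain G (fc v) (v.1 + v.2 + 2 * R, v.1 - v.2)
  refine ⟨K, fc v, _, ?_, ?_, hK⟩
  · unfold nmv fc; simp
  · unfold nmv
    simp only
    have e1 := le_abs_self (v.1 + v.2 + 2 * (R : ℤ) - (v.1 + v.2))
    have e2 := abs_nonneg (v.1 - v.2 - (v.1 - v.2))
    linarith

theorem NA_spec (F : Finset Edg) (v : Vtx) (r R : ℕ) : DA (↑F : Set Edg) v r R (NA F v r R) :=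
  Nat.sInf_mem (DA_ex (↑F : Set Edg) v r R)

/-! ### part CIR -/

theorem t_CIR0 : SCir := by
  classical
  intro F v b k r R hb hr hR hC
  obtain ⟨⟨⟨Xa, _, ka, La⟩, ⟨Xb, _, kb, Lb⟩⟩, ⟨Xc, _, kc, Lc⟩, ⟨Xd, _, kd, Ld⟩⟩ := hC
  set X : Finset Edg := Xa ∪ Xb ∪ Xc ∪ Xd with hX
  have ta : Xa ⊆ X := Finset.subset_union_left.trans (Finset.subset_union_left.trans
    Finset.subset_union_left)
  have tb : Xb ⊆ X := Finset.subset_union_right.trans (Finset.subset_union_left.trans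
    Finset.subset_union_left)
  have tc : Xc ⊆ X := Finset.subset_union_right.trans Finset.subset_union_left
  have td : Xd ⊆ X := Finset.subset_union_right
  have hcard : X.card ≤ 4 * k := by
    have h1 := Finset.card_union_le (Xa ∪ Xb ∪ Xc) Xd
    have h2 := Finset.card_union_le (Xa ∪ Xb) Xc
    have h3 := Finset.card_union_le Xa Xb
    show (Xa ∪ Xb ∪ Xc ∪ Xd).card ≤ 4 * k
    omega
  set E : Finset Edg := F ∪ X with hE
  obtain ⟨z, hz⟩ := circ_v (v := v) (R1 := (b : ℤ)) (R2 := 2 * (b : ℤ)) (by omega) (by omega)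
    (E := E) (La.mono (Finset.union_subset_union_right ta))
    (Lb.mono (Finset.union_subset_union_right tb)) (Lc.mono (Finset.union_subset_union_right tc))
    (Ld.mono (Finset.union_subset_union_right td))
  obtain ⟨p, q, hp, hq, hch⟩ := NA_spec F v r (2 * b)
  obtain ⟨p', q', hp', hq', hch'⟩ := NA_spec F v b R
  obtain ⟨w1, K1, K2, hw1, hK, c1, _⟩ := touch2 (v := v) (R1 := (b : ℤ)) (R := 2 * (b : ℤ))
    (by omega) (by omega) hz (hp.trans (by omega)) (by push_cast at hq; linarith) hch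
  obtain ⟨w2, K1', K2', hw2, hK', _, c2'⟩ := touch2 (v := v) (R1 := (b : ℤ)) (R := 2 * (b : ℤ))
    (by omega) (by omega) hz hp' (by
      have : (2 * (b : ℤ)) ≤ R := by exact_mod_cast hR
      linarith) hch'
  have hreach : Reach ((↑F : Set Edg) ∪ ↑X) w1 w2 := by
    refine (hw1.symm.trans hw2).mono ?_
    rintro e ⟨he, _⟩
    rw [hE, Finset.coe_union] at he
    exact he
  have c3 := reach_chain X hreach
  have c4 := (c1.trans c3).trans c2'
  refine (Nat.sInf_le (⟨p, q', hp, hq', c4⟩ : DA (↑F : Set Edg) v r R _)).trans ?_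
  omega

theorem t_CIR (_hT : STr) : SCir := t_CIR0

end Pool.Agent.W38.EN
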